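import Mathlib
import Pool.Agent.Y215.CC.TopB

set_option autoImplicit false

/-!
# The irreducible components of the center variety: affine stability and exact members

Let `M(d)` be the Zariski closure, in the projective space of all forms `P dy - Q dx` with
`deg P, deg Q ≤ d`, of the set of foliations of degree `d` having a center, `d ≥ 2`, and `X` an
irreducible component of `M(d)`. Then `X` is stable under the pullback by every affine map of the
plane, invertible or not; it contains `d f` for all nonconstant `f` of degree at most `2`; and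
either `X` contains `d (l ^ (d + 1))` for all linear polynomials `l`, or it contains no `d f` with
`deg f = d + 1`, and it contains `d (l ^ d)` for all `l`; the two cases are told apart by the leading
homogeneous parts of the members of `X`.
-/

namespace Pool.Agent.Results.MP_9e47d4_ag.AffineStableComponents

open MvPolynomial Pool.Agent.Y215.CC
open scoped LinearAlgebra.Projectivization

/-- The closed set `M(d)`. -/
def centerVariety (d : ℕ) : Set (ℙ ℂ (Frm d)) := closure (centers d)

/-- `X` is an irreducible component of `M`: a maximal irreducible subset of `M`. -/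
def IsComponent {d : ℕ} (M X : Set (ℙ ℂ (Frm d))) : Prop :=
  Maximal (fun Z => IsIrreducible Z ∧ Z ⊆ M) X

theorem result (d : ℕ) (hd : 2 ≤ d) (X : Set (ℙ ℂ (Frm d)))
    (hX : IsComponent (centerVariety d) X) :
    (∀ (p : Fin 2 → ℂ) (m : Fin 2 → Fin 2 → ℂ) (w w' : Frm d) (hw : w ≠ 0) (hw' : w' ≠ 0),
      Projectivization.mk ℂ w hw ∈ X → fP w' = pb1 p m (fP w) (fQ w) →
      fQ w' = pb2 p m (fP w) (fQ w) → Projectivization.mk ℂ w' hw' ∈ X) ∧
    (X ∩ exactForms d (d + 1)).Nonempty ∧ exactForms d 2 ⊆ X ∧
    (¬ LeadingRadial X → ∀ l : MvPolynomial (Fin 2) ℂ, l.totalDegree = 1 →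
      HasDiff X (l ^ (d + 1))) ∧
    (LeadingRadial X → (∀ f : MvPolynomial (Fin 2) ℂ, HasDiff X f → f.totalDegree ≤ d) ∧
      ∀ l : MvPolynomial (Fin 2) ℂ, l.totalDegree = 1 → HasDiff X (l ^ d)) := by
  have h2 : exactForms d 2 ⊆ X := exact_two (by omega) hX
  obtain ⟨x, hx⟩ := exact_nonempty (d := d) (by omega)
  exact ⟨fun p m w w' hw hw' hwX h1 h2 => comp_affine_all hX p m w hw hwX w' hw' h1 h2,
    ⟨x, h2 hx, exact_mono d (by omega) hx⟩, h2, fun h l hl => case_a hX h l hl,
    fun h => ⟨fun f hf => deg_le h f hf, fun l hl => case_b' (by omega) hX h l hl⟩⟩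

end Pool.Agent.Results.MP_9e47d4_ag.AffineStableComponents
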